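import Pool.Agent.Helper49.Irr.Main

/-!
# A smooth proper scheme over the integers whose complex fibre is irrational

There is a scheme `X`, proper and smooth of relative dimension `11` over `Spec ℤ`, with
geometrically integral generic fibre, such that `X_ℂ` is not birational over `ℂ` to any affine
space.

The scheme `X` is the closure of the generic point of the moduli of `11`-pointed genus one curves
in the product, over the `5`-element subsets `J` of the set of the marked points, of the projective
spaces of dimension `5` which are the moduli spaces of the `J`-pointed genus one curves whose
marking is very ample (Smyth, Lekili and Polishchuk).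
-/

namespace Pool.Agent.Results.MP_ec79f0_ag.IrrationalSmoothProper

open AlgebraicGeometry CategoryTheory Limits

/-- There is a scheme `X`, proper and smooth of relative dimension `11` over `Spec ℤ`, whose
generic fibre is geometrically integral and whose complex fibre is not rational. -/
theorem result : ∃ (X : Scheme.{0}) (f : X ⟶ Spec (.of ℤ)),
    SmoothOfRelativeDimension 11 f ∧ Smooth f ∧ IsProper f ∧
    GeometricallyIntegral (pullback.snd f (Spec.map (CommRingCat.ofHom (algebraMap ℤ ℚ)))) ∧
    ¬ Scheme.IsRationalOver
      (pullback.snd f (Spec.map (CommRingCat.ofHom (algebraMap ℤ ℂ)))) :=
  Pool.Agent.Helper49.Irr.main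

end Pool.Agent.Results.MP_ec79f0_ag.IrrationalSmoothProper
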